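import Pool.Agent.helper81.DH.SpecF

/-!
# d2:FCH (MP_5823cb_al): the chain multiplied from the left (helper76)
-/

set_option autoImplicit false

open Filter Topology MeasureTheory
open scoped commutatorElement

namespace Pool.Agent.helper90.DH

open Pool.Agent.helper64.D2

theorem FCH_one {a : ℝ} (ha : 0 ≤ a) : Sz 1 a := by
  intro x
  have h1 : ev 1 = fun y : ℝ => y := by
    funext y
    rfl
  rw [h1]
  have h2 : d2 (fun y : ℝ => y) x = 0 := by
    unfold d2
    have h3 : deriv (fun y : ℝ => y) = fun _ => 1 := by
      funext y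
      exact deriv_id y
    rw [h3]
    simp
  rw [h2, abs_zero]
  exact ha

theorem FCH_mono {g : DD} {a b : ℝ} (h : Sz g a) (hab : a ≤ b) : Sz g b := fun x => (h x).trans hab

theorem FCH (hSZC : SZC_stmt) : FCH_stmt := by
  intro q V u v H a ha0 ha1 hch hsz hH
  obtain ⟨-, -, hmul, hinv, -⟩ := hSZC
  have hHi : Sz H⁻¹ (2 * a) := hinv H a hH (by linarith)
  have hHg : ∀ g : DD, Sz g a → Sz (H * g) (10 * a) := by
    intro g hg
    refine FCH_mono (hmul H g a a hH hg (by linarith) (by linarith)) ?_
    nlinarith
  have hcj : ∀ g : DD, Sz g a → Sz (H * g * H⁻¹) (10 * a) := by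
    intro g hg
    have h1 : Sz (H * g) (3 * a) := by
      refine FCH_mono (hmul H g a a hH hg (by linarith) (by linarith)) ?_
      nlinarith
    refine FCH_mono (hmul (H * g) H⁻¹ (3 * a) (2 * a) h1 hHi (by linarith) (by linarith)) ?_
    nlinarith
  refine ⟨fun j => H * V (min j q), fun j => if j < q then H * u j * H⁻¹ else 1,
    fun j => if j < q then H * v j * H⁻¹ else 1, ?_, ?_, ?_, ?_, ?_⟩
  · show H * V (min 0 q) = H * V 0
    rw [Nat.zero_min]
  · show H * V (min q q) = H * V q
    rw [min_self]
  · intro j
    by_cases hj : j < q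
    · simp only [if_pos hj]
      rw [min_eq_left (by omega : j + 1 ≤ q), min_eq_left hj.le, hch j hj]
      simp only [commutatorElement_def]
      group
    · simp only [if_neg hj]
      rw [min_eq_right (by omega : q ≤ j + 1), min_eq_right (by omega : q ≤ j)]
      simp
  · intro j
    have hm : min j q ≤ q := min_le_right _ _
    refine ⟨hHg _ (hsz _ hm).1, ?_, ?_⟩
    · show Sz (if j < q then H * u j * H⁻¹ else 1) (10 * a)
      by_cases hj : j < q
      · rw [if_pos hj]
        exact hcj _ (hsz j hj.le).2.1
      · rw [if_neg hj]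
        exact FCH_one (by linarith)
    · show Sz (if j < q then H * v j * H⁻¹ else 1) (10 * a)
      by_cases hj : j < q
      · rw [if_pos hj]
        exact hcj _ (hsz j hj.le).2.2
      · rw [if_neg hj]
        exact FCH_one (by linarith)
  · intro j hj
    have h1 : ¬ j < q := by omega
    simp only [if_neg h1]
    exact ⟨trivial, trivial⟩

end Pool.Agent.helper90.DH
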