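import Pool.Agent.helper81.DH.SpecF

/-!
# d2:FNU (MP_5823cb_al): numbers of the assembly (helper76)
-/

set_option autoImplicit false

open Filter Topology MeasureTheory
open scoped commutatorElement

namespace Pool.Agent.helper90.DH

open Pool.Agent.helper64.D2

/-- the real inequalities: `x = 1/2^n`, `q x ≤ 1/q`, and so on. -/
theorem FNU_real {K B x q z w s : ℝ} (hK : 1 ≤ K) (hB : 1 ≤ B) (hx : 0 < x) (hx1 : x * (10000 * (K * B ^ 2)) ≤ 1)
    (hq : 10000 * (K * B ^ 2) ≤ q) (hqx : q ^ 2 * x ≤ 1) (hz : 10000 * (K * B ^ 2) ≤ z) (hzx : z ^ 2 * x ≤ 1)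
    (hw : 10000 * (K * B ^ 2) ≤ w) (hwx : w ^ 2 * x ≤ 1) (hs : s ≤ x) :
    K * ((5 * x) * B + q * (x ^ 3 / q) + q * (1 / q ^ 2)) ≤ 1 ∧ K * (5 * x) * B * q ≤ 1 ∧ K * 2 ≤ q ∧
    K * (((5 * x) * B + q * (x ^ 3 / q)) ^ 2 + q * (x ^ 3 / q)) ≤ 1 / 100 * x ∧
    10 * (K * ((5 * x) * B + q * (x ^ 3 / q)) + 20 * x ^ 3) ≤ 1 / z ∧
    K * ((5 * x) * B + q * (x ^ 3 / q)) + 20 * x ^ 3 ≤ 1 / 100 ∧
    5 * s + x ^ 3 / q ≤ 1 / w ∧ x ^ 3 / q ≤ 1 / 1000 ∧ 5 * x ≤ 1 / 1000 ∧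
    20 * x ^ 3 + 172 / 1000 * x + 4 * (20 * x ^ 3) * (172 / 1000 * x) ≤ x / 4 := by
  have hB2 : B ≤ B ^ 2 := by nlinarith
  have hKB : 1 ≤ K * B := by nlinarith
  have hKB2 : K * B ≤ K * B ^ 2 := mul_le_mul_of_nonneg_left hB2 (by linarith)
  have hKK : K ≤ K * B := by nlinarith
  set C : ℝ := K * B ^ 2 with hC
  have hC1 : 1 ≤ C := hKB.trans hKB2
  have hxs : x ≤ 1 / 10000 := by nlinarith
  have hx3 : x ^ 3 ≤ x ^ 2 / 10000 := by
    have : x ^ 3 = x ^ 2 * x := by ring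
    rw [this]
    nlinarith [sq_nonneg x]
  have hx2 : x ^ 2 ≤ x / 10000 := by nlinarith
  have hx30 : 0 ≤ x ^ 3 := by positivity
  have hq0 : 0 < q := by linarith
  have hz0 : 0 < z := by linarith
  have hw0 : 0 < w := by linarith
  have hqe : q * (x ^ 3 / q) = x ^ 3 := by field_simp
  have hq2 : q * (1 / q ^ 2) = 1 / q := by field_simp
  have hqi : 1 / q ≤ 1 / (10000 * C) := one_div_le_one_div_of_le (by positivity) hq
  have hx3q : x ^ 3 / q ≤ x ^ 3 := div_le_self hx30 (by linarith)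
  have hKx : K * (5 * x * B) ≤ 5 * (x * C) := by nlinarith
  have hxC : x * C ≤ 1 / 10000 := by nlinarith
  have hKx3 : K * x ^ 3 ≤ x * C / 10000 := by
    have h1 : x ^ 3 ≤ x / 10000 := by nlinarith
    have h2 : K * x ^ 3 ≤ K * (x / 10000) := mul_le_mul_of_nonneg_left h1 (by linarith)
    nlinarith
  rw [hqe, hq2]
  refine ⟨?_, ?_, ?_, ?_, ?_, ?_, ?_, ?_, ?_, ?_⟩
  · have h1 : K * (1 / q) ≤ 1 / 10000 := by
      rw [mul_one_div, div_le_iff₀ hq0]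
      nlinarith
    nlinarith
  · have h1 : K * (5 * x) * B * q = 5 * (K * B) * (q * x) := by ring
    have h2 : q * x ≤ 1 / q := by
      rw [le_div_iff₀ hq0]
      nlinarith
    rw [h1]
    calc 5 * (K * B) * (q * x) ≤ 5 * (K * B) * (1 / q) := mul_le_mul_of_nonneg_left h2 (by linarith)
      _ ≤ 1 := by
        rw [mul_one_div, div_le_one hq0]
        nlinarith
  · nlinarith
  · have h1 : 5 * x * B + x ^ 3 ≤ 6 * x * B := by nlinarith
    have h0 : 0 ≤ 5 * x * B + x ^ 3 := by positivity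
    have h2 : (5 * x * B + x ^ 3) ^ 2 ≤ (6 * x * B) ^ 2 := pow_le_pow_left₀ h0 h1 2
    have h3 : K * (5 * x * B + x ^ 3) ^ 2 ≤ K * (6 * x * B) ^ 2 := mul_le_mul_of_nonneg_left h2 (by linarith)
    have h4 : K * (6 * x * B) ^ 2 = 36 * x * (x * C) := by rw [hC]; ring
    have h5 : K * x ^ 3 ≤ x * (x * C) := by
      have h6 : K * x ^ 3 = x * (x * (K * x)) := by ring
      rw [h6]
      have h7 : K * x ≤ C := by nlinarith
      exact mul_le_mul_of_nonneg_left (mul_le_mul_of_nonneg_left h7 hx.le) hx.le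
    nlinarith
  · have h1 : x * z ≤ 1 / z := by
      rw [le_div_iff₀ hz0]
      nlinarith
    have h2 : 10 * (K * (5 * x * B + x ^ 3) + 20 * x ^ 3) ≤ 1000 * (x * C) := by nlinarith
    refine h2.trans (le_trans ?_ h1)
    nlinarith
  · nlinarith
  · have h1 : x * w ≤ 1 / w := by
      rw [le_div_iff₀ hw0]
      nlinarith
    refine le_trans ?_ h1
    nlinarith
  · nlinarith
  · nlinarith
  · have h1 : 20 * x ^ 3 + 172 / 1000 * x + 4 * (20 * x ^ 3) * (172 / 1000 * x) =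
        x * (20 * x ^ 2 + 172 / 1000 + 4 * 20 * 172 / 1000 * x ^ 3) := by ring
    rw [h1]
    have h2 : 20 * x ^ 2 + 172 / 1000 + 4 * 20 * 172 / 1000 * x ^ 3 ≤ 1 / 4 := by nlinarith
    nlinarith

theorem FNU : FNU_stmt := by
  intro K B hK hB
  obtain ⟨p, hp⟩ := pow_unbounded_of_one_lt (10000 * (K * B ^ 2)) (by norm_num : (1 : ℝ) < 2)
  refine ⟨400 * (p + 10), fun n hn => ?_⟩
  have hm : p + 10 ≤ n / 400 := by omega
  have hpow : ∀ e : ℕ, p ≤ e → 10000 * (K * B ^ 2) ≤ (2 : ℝ) ^ e := fun e he =>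
    hp.le.trans (pow_le_pow_right₀ (by norm_num) he)
  have hsn : n ≤ s0n n := by
    have h1 : ∀ m : ℕ, 6 ≤ m → 400 * (m + 1) ≤ 4 ^ m := by
      intro m hm
      induction m, hm using Nat.le_induction with
      | base => norm_num
      | succ k hk ih => rw [pow_succ]; omega
    have h2 := h1 (n / 400) (by omega)
    have h3 : s0n n = 4 ^ (n / 400) := by
      unfold s0n rn
      rw [← pow_mul, mul_comm, pow_mul]
      norm_num
    rw [h3]
    omega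
  have hqe : (qn n : ℝ) = 2 ^ (4 * (n / 400)) := by
    have h1 : qn n = 2 ^ (4 * (n / 400)) := by
      unfold qn rn
      rw [← pow_mul, mul_comm]
    rw [h1]
    push_cast
    rfl
  have h2n : (0 : ℝ) < 2 ^ n := by positivity
  have hx : (0 : ℝ) < 1 / 2 ^ n := by positivity
  have hsq : ∀ e : ℕ, 2 * e ≤ n → ((2 : ℝ) ^ e) ^ 2 * (1 / 2 ^ n) ≤ 1 := by
    intro e he
    rw [← pow_mul, mul_one_div, div_le_one h2n]
    exact pow_le_pow_right₀ (by norm_num) (by omega)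
  have hs : (1 : ℝ) / 2 ^ s0n n ≤ 1 / 2 ^ n :=
    one_div_le_one_div_of_le h2n (pow_le_pow_right₀ (by norm_num) hsn)
  have hx1 : 1 / 2 ^ n * (10000 * (K * B ^ 2)) ≤ 1 := by
    rw [one_div_mul_eq_div, div_le_one h2n]
    exact hpow n (by omega)
  have hq := hpow (4 * (n / 400)) (by omega)
  obtain ⟨a1, a2, a3, a4, a5, a6, a7, a8, a9, a10⟩ := FNU_real hK hB hx hx1 hq (hsq _ (by omega))
    (hpow (n / 3) (by omega)) (hsq _ (by omega)) (hpow (n / 4) (by omega)) (hsq _ (by omega)) hs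
  rw [hqe]
  have e3 : (1 : ℝ) / ((2 : ℝ) ^ (4 * (n / 400)) * 2 ^ (3 * n)) = (1 / 2 ^ n) ^ 3 / 2 ^ (4 * (n / 400)) := by
    rw [div_pow, one_pow, ← pow_mul, mul_comm 3 n, div_div, mul_comm]
  have e4 : (20 : ℝ) / 2 ^ (3 * n) = 20 * (1 / 2 ^ n) ^ 3 := by
    rw [div_pow, one_pow, ← pow_mul, mul_comm 3 n, mul_one_div]
  have e5 : (5 : ℝ) / 2 ^ n = 5 * (1 / 2 ^ n) := by rw [mul_one_div]
  have e6 : (5 : ℝ) / 2 ^ s0n n = 5 * (1 / 2 ^ s0n n) := by rw [mul_one_div]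
  have e7 : (1 : ℝ) / 2 ^ (n + 2) = 1 / 2 ^ n / 4 := by
    rw [pow_add, div_div]
    norm_num
  rw [e3, e4, e5, e6, e7]
  refine ⟨?_, hsn, ?_, a1, a2, a3, a4, a5, a6, a7, a8, a9, a10⟩
  · omega
  · unfold qn rn
    exact Nat.one_le_pow _ _ (by positivity)

end Pool.Agent.helper90.DH
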